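import Mathlib

open Finset

namespace Pool.Agent.KleinClique

abbrev K4 := ZMod 2 × ZMod 2

def q (x : K4) : ZMod 2 := x.1 * x.1 + x.1 * x.2 + x.2 * x.2

def bb (x y : K4) : ZMod 2 := x.1 * y.1 + x.1 * y.2 + x.2 * y.2

theorem q_eq_one : ∀ {x : K4}, x ≠ 0 → q x = 1 := by decide

theorem eq_zero_of_q : ∀ {x : K4}, q x = 0 → x = 0 := by decide

theorem k4_add_self : ∀ x : K4, x + x = 0 := by decide

theorem q_sum {ι : Type*} (s : Finset ι) (f : ι → K4) :
    q (∑ i ∈ s, f i) = ∑ i ∈ s, ∑ j ∈ s, bb (f i) (f j) := by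
  unfold q bb
  rw [Prod.fst_sum, Prod.snd_sum, Finset.sum_mul_sum, Finset.sum_mul_sum, Finset.sum_mul_sum,
    ← Finset.sum_add_distrib, ← Finset.sum_add_distrib]
  refine Finset.sum_congr rfl fun i _ => ?_
  rw [← Finset.sum_add_distrib, ← Finset.sum_add_distrib]

/-- `C(x, 4)` is odd iff `x / 4` is odd. -/
theorem choose_four (x : ℕ) : ((x.choose 4 : ℕ) : ZMod 2) = ((x / 4 : ℕ) : ZMod 2) := by
  have : Fact (Nat.Prime 2) := ⟨Nat.prime_two⟩
  have h1 : x.choose 4 ≡ (x / 2).choose 2 [MOD 2] := by
    have := Choose.choose_modEq_choose_mod_mul_choose_div_nat (n := x) (k := 4) (p := 2)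
    simpa using this
  have h2 : (x / 2).choose 2 ≡ (x / 2 / 2).choose 1 [MOD 2] := by
    have := Choose.choose_modEq_choose_mod_mul_choose_div_nat (n := x / 2) (k := 2) (p := 2)
    simpa using this
  have h3 := (ZMod.natCast_eq_natCast_iff _ _ 2).2 (h1.trans h2)
  rw [h3, Nat.choose_one_right, Nat.div_div_eq_div_mul]

variable {V : Type*} [DecidableEq V]

theorem count_super (W U : Finset V) (n : ℕ) (hU : U ⊆ W) (hn : U.card ≤ n) :
    ((W.powersetCard n).filter (fun S => U ⊆ S)).card = (W.card - U.card).choose (n - U.card) := by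
  rw [← Finset.card_sdiff_of_subset hU, ← Finset.card_powersetCard]
  refine Finset.card_nbij' (fun S => S \ U) (fun T => T ∪ U) ?_ ?_ ?_ ?_
  · intro S hS
    simp only [Finset.coe_filter, Finset.mem_powersetCard, Set.mem_ofPred_eq] at hS
    simp only [Finset.mem_coe, Finset.mem_powersetCard]
    refine ⟨Finset.sdiff_subset_sdiff hS.1.1 (Finset.Subset.refl _), ?_⟩
    rw [Finset.card_sdiff_of_subset hS.2, hS.1.2]
  · intro T hT
    simp only [Finset.mem_coe, Finset.mem_powersetCard] at hT
    simp only [Finset.coe_filter, Finset.mem_powersetCard, Set.mem_ofPred_eq]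
    have hdisj : Disjoint T U := Finset.disjoint_of_subset_left hT.1 Finset.sdiff_disjoint
    refine ⟨⟨Finset.union_subset (hT.1.trans Finset.sdiff_subset) hU, ?_⟩, Finset.subset_union_right⟩
    rw [Finset.card_union_of_disjoint hdisj, hT.2]
    omega
  · intro S hS
    simp only [Finset.coe_filter, Finset.mem_powersetCard, Set.mem_ofPred_eq] at hS
    exact Finset.sdiff_union_of_subset hS.2
  · intro T hT
    simp only [Finset.mem_coe, Finset.mem_powersetCard] at hT
    have hdisj : Disjoint T U := Finset.disjoint_of_subset_left hT.1 Finset.sdiff_disjoint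
    exact Finset.union_sdiff_cancel_right hdisj

/-- sum of the colours of all edges inside `S` -/
def cs (c : Finset V → K4) (S : Finset V) : K4 := ∑ e ∈ S.powersetCard 2, c e

theorem pc_filter {W S : Finset V} (h : S ⊆ W) :
    S.powersetCard 2 = (W.powersetCard 2).filter (fun e => e ⊆ S) := by
  ext e
  simp only [Finset.mem_powersetCard, Finset.mem_filter]
  constructor
  · rintro ⟨h1, h2⟩; exact ⟨⟨h1.trans h, h2⟩, h1⟩
  · rintro ⟨⟨_, h2⟩, h3⟩; exact ⟨h3, h2⟩

theorem key_sum {n : ℕ} (h4 : 4 ≤ n) (ε : ZMod 2)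
    (hε : ∀ u, 2 ≤ u → u ≤ 4 → (((n + 4 - u) / 4 : ℕ) : ZMod 2) = ε)
    (c : Finset V → K4) (W : Finset V) (hW : W.card = n + 4) :
    ∑ S ∈ W.powersetCard n, q (cs c S) = ε * q (cs c W) := by
  unfold cs
  rw [q_sum]
  have h3 : ∀ S ∈ W.powersetCard n, q (∑ e ∈ S.powersetCard 2, c e) =
      ∑ e ∈ W.powersetCard 2, ∑ f ∈ W.powersetCard 2,
        if e ∪ f ⊆ S then bb (c e) (c f) else 0 := by
    intro S hS
    rw [q_sum, pc_filter (Finset.mem_powersetCard.1 hS).1, Finset.sum_filter]
    refine Finset.sum_congr rfl fun e _ => ?_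
    by_cases he : e ⊆ S
    · rw [if_pos he, Finset.sum_filter]
      refine Finset.sum_congr rfl fun f _ => ?_
      by_cases hf : f ⊆ S
      · rw [if_pos hf, if_pos (Finset.union_subset he hf)]
      · rw [if_neg hf, if_neg (fun h => hf (Finset.subset_union_right.trans h))]
    · rw [if_neg he]
      symm
      apply Finset.sum_eq_zero
      intro f _
      rw [if_neg (fun h => he (Finset.subset_union_left.trans h))]
  rw [Finset.sum_congr rfl h3, Finset.sum_comm, Finset.mul_sum]
  refine Finset.sum_congr rfl fun e he => ?_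
  rw [Finset.sum_comm, Finset.mul_sum]
  refine Finset.sum_congr rfl fun f hf => ?_
  rw [← Finset.sum_filter, Finset.sum_const, nsmul_eq_mul]
  have he' := Finset.mem_powersetCard.1 he
  have hf' := Finset.mem_powersetCard.1 hf
  have hU : e ∪ f ⊆ W := Finset.union_subset he'.1 hf'.1
  have hu4 : (e ∪ f).card ≤ 4 := by
    have := Finset.card_union_le e f
    omega
  have hu2 : 2 ≤ (e ∪ f).card := by
    have := Finset.card_le_card (Finset.subset_union_left (s₁ := e) (s₂ := f))
    omega
  rw [count_super W (e ∪ f) n hU (by omega), hW]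
  have e1 : (n + 4 - (e ∪ f).card).choose (n - (e ∪ f).card) =
      (n + 4 - (e ∪ f).card).choose 4 := by
    have : n + 4 - (e ∪ f).card = (n - (e ∪ f).card) + 4 := by omega
    rw [this]
    exact Nat.choose_symm_add
  rw [e1, choose_four, hε _ hu2 hu4]

omit [DecidableEq V] in
/-- If no `n`-set has zero sum then `∑ q (cs c S)` is the parity of the number of `n`-sets. -/
theorem sum_of_ne {n : ℕ} (c : Finset V → K4) (W : Finset V) (hW : W.card = n + 4)
    (hne : ∀ S ∈ W.powersetCard n, cs c S ≠ 0) :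
    ∑ S ∈ W.powersetCard n, q (cs c S) = (((n + 4) / 4 : ℕ) : ZMod 2) := by
  rw [Finset.sum_congr rfl (fun S hS => q_eq_one (hne S hS)), Finset.sum_const,
    Finset.card_powersetCard, hW, nsmul_eq_mul, mul_one]
  have : (n + 4).choose n = (n + 4).choose 4 := Nat.choose_symm_add
  rw [this, choose_four]

theorem cast_odd {k : ℕ} (h : k % 2 = 1) : ((k : ℕ) : ZMod 2) = 1 := by
  have h6 : (k : ZMod 2) = ((1 : ℕ) : ZMod 2) := (ZMod.natCast_eq_natCast_iff _ _ 2).2 h
  rw [h6, Nat.cast_one]

theorem cast_even {k : ℕ} (h : k % 2 = 0) : ((k : ℕ) : ZMod 2) = 0 := by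
  rw [ZMod.natCast_eq_zero_iff]
  omega

theorem key {n : ℕ} (hn : n % 8 = 4 ∨ n % 8 = 5) (c : Finset V → K4) (W : Finset V)
    (hW : W.card = n + 4) (hne : ∀ S ∈ W.powersetCard n, cs c S ≠ 0) : cs c W = 0 := by
  apply eq_zero_of_q
  have h1 := sum_of_ne c W hW hne
  rw [key_sum (by omega) 1 (fun u h2 h4 => cast_odd (by omega)) c W hW, one_mul] at h1
  rw [h1]
  exact cast_even (by omega)

/-- `n ≡ 0, 1 (mod 8)` and `n + 4` vertices. -/
theorem zero_one {n : ℕ} (h8 : 8 ≤ n) (hn : n % 8 = 0 ∨ n % 8 = 1) (c : Finset V → K4)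
    (W : Finset V) (hW : W.card = n + 4) : ∃ S ⊆ W, S.card = n ∧ cs c S = 0 := by
  by_contra hcon
  have hne : ∀ S ∈ W.powersetCard n, cs c S ≠ 0 := fun S h1 h2 =>
    hcon ⟨S, (Finset.mem_powersetCard.1 h1).1, (Finset.mem_powersetCard.1 h1).2, h2⟩
  have h1 := sum_of_ne c W hW hne
  rw [key_sum (by omega) 0 (fun u h2 h4 => cast_even (by omega)) c W hW, zero_mul,
    cast_odd (by omega)] at h1
  exact zero_ne_one h1

theorem cs_insert (c : Finset V → K4) {x : V} {S : Finset V} (hx : x ∉ S) :
    cs c (insert x S) = cs c S + ∑ y ∈ S, c {x, y} := by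
  unfold cs
  rw [Finset.powersetCard_succ_insert hx, Finset.sum_union]
  · congr 1
    rw [Finset.sum_image]
    · rw [Finset.powersetCard_one, Finset.sum_map]
      rfl
    · intro a ha b hb hab
      rw [Finset.mem_coe, Finset.mem_powersetCard] at ha hb
      have h1 : x ∉ a := fun h => hx (ha.1 h)
      have h2 : x ∉ b := fun h => hx (hb.1 h)
      rw [← Finset.erase_insert h1, ← Finset.erase_insert h2, hab]
  · rw [Finset.disjoint_left]
    intro a ha hb
    rw [Finset.mem_powersetCard] at ha
    rw [Finset.mem_image] at hb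
    obtain ⟨t, _, rfl⟩ := hb
    exact hx (ha.1 (Finset.mem_insert_self _ _))

/-- weighted degree inside `A` -/
def dg (c : Finset V → K4) (A : Finset V) (x : V) : K4 := ∑ z ∈ A.erase x, c {x, z}

theorem cs_sdiff (c : Finset V → K4) (A : Finset V) (R : Finset V) (hR : R ⊆ A) :
    cs c (A \ R) = cs c A + ∑ x ∈ R, dg c A x + cs c R := by
  induction R using Finset.induction_on with
  | empty =>
    have : (∅ : Finset V).powersetCard 2 = ∅ := by
      rw [Finset.powersetCard_eq_empty]; simp
    simp [cs, this]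
  | insert x R hx ih =>
    have hxA : x ∈ A := hR (Finset.mem_insert_self _ _)
    have hRA : R ⊆ A := (Finset.subset_insert _ _).trans hR
    have h0 := ih hRA
    have hx2 : x ∉ A \ insert x R := by simp
    have h1 : insert x (A \ insert x R) = A \ R := by
      ext z
      simp only [Finset.mem_insert, Finset.mem_sdiff, not_or]
      constructor
      · rintro (rfl | h)
        · exact ⟨hxA, hx⟩
        · exact ⟨h.1, h.2.2⟩
      · rintro ⟨h2, h3⟩
        by_cases h4 : z = x
        · exact Or.inl h4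
        · exact Or.inr ⟨h2, h4, h3⟩
    have h2 := cs_insert c hx2
    rw [h1] at h2
    have h3 : dg c A x = ∑ y ∈ A \ insert x R, c {x, y} + ∑ y ∈ R, c {x, y} := by
      unfold dg
      rw [← Finset.sum_union]
      · congr 1
        ext z
        simp only [Finset.mem_erase, Finset.mem_union, Finset.mem_sdiff, Finset.mem_insert, not_or]
        constructor
        · rintro ⟨h4, h5⟩
          by_cases h6 : z ∈ R
          · exact Or.inr h6
          · exact Or.inl ⟨h5, h4, h6⟩
        · rintro (h4 | h4)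
          · exact ⟨h4.2.1, h4.1⟩
          · exact ⟨fun h => hx (h ▸ h4), hRA h4⟩
      · rw [Finset.disjoint_left]
        intro z hz hz2
        rw [Finset.mem_sdiff, Finset.mem_insert, not_or] at hz
        exact hz.2.2 hz2
    rw [Finset.sum_insert hx, cs_insert c hx]
    have h4 : cs c (A \ insert x R) = cs c (A \ R) + ∑ y ∈ A \ insert x R, c {x, y} := by
      rw [h2, add_assoc, k4_add_self, add_zero]
    rw [h4, h0, h3]
    have h5 := k4_add_self (∑ y ∈ R, c {x, y})
    generalize (∑ y ∈ R, c {x, y}) = a at *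
    generalize (∑ y ∈ A \ insert x R, c {x, y}) = b at *
    calc cs c A + ∑ x ∈ R, dg c A x + cs c R + b
        = cs c A + ∑ x ∈ R, dg c A x + cs c R + b + (a + a) := by rw [h5, add_zero]
      _ = _ := by abel

theorem pairs_zero (d : V → K4) : ∀ (k : ℕ) (A : Finset V), 2 * k + 3 ≤ A.card →
    ∃ S ⊆ A, S.card = 2 * k ∧ ∑ z ∈ S, d z = 0 := by
  intro k
  induction k with
  | zero => intro A _; exact ⟨∅, Finset.empty_subset _, rfl, rfl⟩
  | succ k ih =>
    intro A hA
    have hcard : (Finset.univ : Finset K4).card < A.card := by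
      have : (Finset.univ : Finset K4).card = 4 := by decide
      omega
    obtain ⟨x, hx, y, hy, hxy, hd⟩ := Finset.exists_ne_map_eq_of_card_lt_of_maps_to hcard
      (f := d) (fun a _ => Finset.mem_coe.2 (Finset.mem_univ _))
    have hyx : y ∈ A.erase x := Finset.mem_erase.2 ⟨hxy.symm, hy⟩
    obtain ⟨S, hS, hc, hs⟩ := ih ((A.erase x).erase y) (by
      rw [Finset.card_erase_of_mem hyx, Finset.card_erase_of_mem hx]; omega)
    have hyS : y ∉ S := fun h => (Finset.notMem_erase y _) (hS h)
    have hxS : x ∉ insert y S := by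
      rw [Finset.mem_insert, not_or]
      refine ⟨hxy, fun h => ?_⟩
      exact (Finset.notMem_erase x _) (Finset.mem_of_mem_erase (hS h))
    refine ⟨insert x (insert y S), ?_, ?_, ?_⟩
    · intro z hz
      rw [Finset.mem_insert, Finset.mem_insert] at hz
      rcases hz with rfl | rfl | hz
      · exact hx
      · exact hy
      · exact Finset.mem_of_mem_erase (Finset.mem_of_mem_erase (hS hz))
    · rw [Finset.card_insert_of_notMem hxS, Finset.card_insert_of_notMem hyS, hc]; ring
    · rw [Finset.sum_insert hxS, Finset.sum_insert hyS, hs, hd, add_zero, k4_add_self]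

end Pool.Agent.KleinClique
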