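import Pool.Agent.KleinClique.Twin

open Finset

namespace Pool.Agent.KleinClique

variable {V : Type*} [DecidableEq V] {X : Type*} [DecidableEq X]

/-! ### Blocks of four vertices with equal neighbourhoods -/

theorem six_four (l : V → K4) (W : Finset V) (hW : W.card = 6) :
    ∃ T ⊆ W, T.card = 4 ∧ ∑ x ∈ T, l x = 0 := by
  by_contra hcon
  have hne : ∀ S ∈ W.powersetCard 4, ∑ x ∈ S, l x ≠ 0 := fun S h1 h2 =>
    hcon ⟨S, (Finset.mem_powersetCard.1 h1).1, (Finset.mem_powersetCard.1 h1).2, h2⟩
  have h1 : ∑ S ∈ W.powersetCard 4, q (∑ x ∈ S, l x) = 1 := by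
    rw [Finset.sum_congr rfl (fun S hS => q_eq_one (hne S hS)), Finset.sum_const,
      Finset.card_powersetCard, hW, nsmul_eq_mul, mul_one]
    decide
  have h2 : ∑ S ∈ W.powersetCard 4, q (∑ x ∈ S, l x) = 0 := by
    have h3 : ∀ S ∈ W.powersetCard 4, q (∑ x ∈ S, l x) =
        ∑ x ∈ W, ∑ y ∈ W, if ({x} ∪ {y} : Finset V) ⊆ S then bb (l x) (l y) else 0 := by
      intro S hS
      have hSW := (Finset.mem_powersetCard.1 hS).1
      have h4 : S = W.filter (fun x => x ∈ S) := by
        ext z
        rw [Finset.mem_filter]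
        exact ⟨fun h => ⟨hSW h, h⟩, fun h => h.2⟩
      rw [q_sum]
      nth_rewrite 1 [h4]
      rw [Finset.sum_filter]
      refine Finset.sum_congr rfl fun x _ => ?_
      by_cases hx : x ∈ S
      · rw [if_pos hx]
        nth_rewrite 1 [h4]
        rw [Finset.sum_filter]
        refine Finset.sum_congr rfl fun y _ => ?_
        by_cases hy : y ∈ S
        · rw [if_pos hy, if_pos]
          intro z hz
          rw [Finset.mem_union, Finset.mem_singleton, Finset.mem_singleton] at hz
          rcases hz with rfl | rfl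
          · exact hx
          · exact hy
        · rw [if_neg hy, if_neg]
          intro h
          exact hy (h (Finset.mem_union_right _ (Finset.mem_singleton_self y)))
      · rw [if_neg hx]
        symm
        apply Finset.sum_eq_zero
        intro y _
        rw [if_neg]
        intro h
        exact hx (h (Finset.mem_union_left _ (Finset.mem_singleton_self x)))
    rw [Finset.sum_congr rfl h3, Finset.sum_comm]
    refine Finset.sum_eq_zero fun x hx => ?_
    rw [Finset.sum_comm]
    refine Finset.sum_eq_zero fun y hy => ?_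
    rw [← Finset.sum_filter, Finset.sum_const, nsmul_eq_mul]
    have hU : ({x} ∪ {y} : Finset V) ⊆ W := by
      intro z hz
      rw [Finset.mem_union, Finset.mem_singleton, Finset.mem_singleton] at hz
      rcases hz with rfl | rfl
      · exact hx
      · exact hy
    have hu2 : ({x} ∪ {y} : Finset V).card ≤ 2 := by
      have := Finset.card_union_le ({x} : Finset V) {y}
      rw [Finset.card_singleton, Finset.card_singleton] at this
      omega
    have hu1 : 1 ≤ ({x} ∪ {y} : Finset V).card := by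
      have := Finset.card_le_card (Finset.subset_union_left (s₁ := ({x} : Finset V)) (s₂ := {y}))
      rw [Finset.card_singleton] at this
      omega
    rw [count_super W _ 4 hU (by omega), hW]
    have h5 : ∀ u : ℕ, 1 ≤ u → u ≤ 2 → (((6 - u).choose (4 - u) : ℕ) : ZMod 2) = 0 := by
      intro u hu hu'
      interval_cases u <;> decide
    rw [h5 _ hu1 hu2, zero_mul]
  rw [h2] at h1
  exact zero_ne_one h1

theorem extend_four [Fintype X] (G : SimpleGraph V) (cF : Finset X → K4) (A B : Finset V)
    (hAB : Disjoint A B) (hB : B.card = 4)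
    (htw : ∀ u ∈ B, ∀ v ∈ B, ∀ w, (G.Adj u w ↔ G.Adj v w)) (φ : V → X)
    (hφ : Set.InjOn φ A) (h0 : cs (pull G cF φ) A = 0) (hX : A.card + 6 ≤ Fintype.card X) :
    ∃ ψ : V → X, Set.InjOn ψ (A ∪ B : Finset V) ∧ cs (pull G cF ψ) (A ∪ B) = 0 := by
  classical
  have hZ : 6 ≤ (Finset.univ \ A.image φ).card := by
    rw [Finset.card_sdiff_of_subset (Finset.subset_univ _), Finset.card_univ]
    have := Finset.card_image_le (s := A) (f := φ)
    omega
  obtain ⟨W, hWZ, hW⟩ := Finset.exists_subset_card_eq hZ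
  obtain ⟨b0, hb0⟩ : B.Nonempty := by rw [← Finset.card_pos]; omega
  let l : X → K4 := fun x => ∑ a ∈ A, if G.Adj b0 a then cF {x, φ a} else 0
  obtain ⟨T, hTW, hT, hT0⟩ := six_four l W hW
  let β : B ≃ T := Finset.equivOfCardEq (hB.trans hT.symm)
  let ψ : V → X := fun v => if h : v ∈ B then (β ⟨v, h⟩ : X) else φ v
  have hψB : ∀ v (h : v ∈ B), ψ v = (β ⟨v, h⟩ : X) := fun v h => dif_pos h
  have hψA : ∀ v ∈ A, ψ v = φ v := fun v h => dif_neg (Finset.disjoint_left.1 hAB h)
  have hψT : ∀ v ∈ B, ψ v ∈ T := fun v h => by rw [hψB v h]; exact (β ⟨v, h⟩).2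
  have hinjB : Set.InjOn ψ B := by
    intro u hu v hv huv
    rw [hψB u hu, hψB v hv] at huv
    have h1 := β.injective (Subtype.ext huv)
    exact congrArg Subtype.val h1
  have himg : B.image ψ = T := by
    apply Finset.eq_of_subset_of_card_le
    · intro x hx
      obtain ⟨v, hv, rfl⟩ := Finset.mem_image.1 hx
      exact hψT v hv
    · rw [Finset.card_image_of_injOn hinjB, hB, hT]
  have hTA : ∀ x ∈ T, ∀ a ∈ A, x ≠ φ a := by
    intro x hx a ha h
    have h1 := hWZ (hTW hx)
    rw [Finset.mem_sdiff] at h1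
    exact h1.2 (h ▸ Finset.mem_image_of_mem φ ha)
  refine ⟨ψ, ?_, ?_⟩
  · intro u hu v hv huv
    rw [Finset.mem_coe, Finset.mem_union] at hu hv
    rcases hu with hu | hu <;> rcases hv with hv | hv
    · rw [hψA u hu, hψA v hv] at huv
      exact hφ hu hv huv
    · rw [hψA u hu] at huv
      exact absurd huv.symm (hTA _ (hψT v hv) u hu)
    · rw [hψA v hv] at huv
      exact absurd huv (hTA _ (hψT u hu) v hv)
    · exact hinjB hu hv huv
  · rw [cs_union _ _ _ hAB]
    have h1 : cs (pull G cF ψ) A = 0 := by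
      rw [← h0]
      apply cs_congr
      intro x hx y hy _
      by_cases h : G.Adj x y
      · rw [pull_pair _ _ _ h, pull_pair _ _ _ h, hψA x hx, hψA y hy]
      · rw [pull_pair_neg _ _ _ h, pull_pair_neg _ _ _ h]
    have h2 : cs (pull G cF ψ) B = 0 := by
      have h5 : cs (pull G cF ψ) B = cs (fun _ => (0 : K4)) B := by
        apply cs_congr
        intro x hx y hy hxy
        exact pull_pair_neg _ _ _ (fun h => G.loopless.irrefl y ((htw x hx y hy y).1 h))
      rw [h5]
      unfold cs
      exact Finset.sum_const_zero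
    have h3 : ∑ b ∈ B, ∑ a ∈ A, pull G cF ψ {b, a} = ∑ x ∈ T, l x := by
      rw [← himg, Finset.sum_image hinjB]
      refine Finset.sum_congr rfl fun b hb => Finset.sum_congr rfl fun a ha => ?_
      by_cases h : G.Adj b a
      · rw [pull_pair _ _ _ h, if_pos ((htw b hb b0 hb0 a).1 h), hψA a ha]
      · rw [pull_pair_neg _ _ _ h, if_neg (fun h' => h ((htw b hb b0 hb0 a).2 h'))]
    rw [h1, h2, h3, zero_add, zero_add, hT0]

theorem parity_four (G : SimpleGraph V) (A B : Finset V)
    (hAB : Disjoint A B) (hB : B.card = 4)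
    (htw : ∀ u ∈ B, ∀ v ∈ B, ∀ w, (G.Adj u w ↔ G.Adj v w)) :
    cs (pull G (fun _ : Finset V => ((1, 0) : K4)) id) (A ∪ B) =
      cs (pull G (fun _ : Finset V => ((1, 0) : K4)) id) A := by
  classical
  rw [cs_union _ _ _ hAB]
  obtain ⟨b0, hb0⟩ : B.Nonempty := by rw [← Finset.card_pos]; omega
  have h3 : ∑ b ∈ B, ∑ a ∈ A, pull G (fun _ : Finset V => ((1, 0) : K4)) id {b, a} = 0 := by
    have h4 : ∀ b ∈ B, ∑ a ∈ A, pull G (fun _ : Finset V => ((1, 0) : K4)) id {b, a} =
        ∑ a ∈ A, pull G (fun _ : Finset V => ((1, 0) : K4)) id {b0, a} := by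
      intro b hb
      refine Finset.sum_congr rfl fun a ha => ?_
      by_cases h : G.Adj b a
      · rw [pull_pair _ _ _ h, pull_pair _ _ _ ((htw b hb b0 hb0 a).1 h)]
      · rw [pull_pair_neg _ _ _ h,
          pull_pair_neg _ _ _ (fun h' => h ((htw b hb b0 hb0 a).2 h'))]
    rw [Finset.sum_congr rfl h4, Finset.sum_const, hB]
    generalize ∑ a ∈ A, pull G (fun _ : Finset V => ((1, 0) : K4)) id {b0, a} = z
    revert z
    decide
  have h2 : cs (pull G (fun _ : Finset V => ((1, 0) : K4)) id) B = 0 := by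
    have h5 : cs (pull G (fun _ : Finset V => ((1, 0) : K4)) id) B =
        cs (fun _ => (0 : K4)) B := by
      apply cs_congr
      intro x hx y hy hxy
      exact pull_pair_neg _ _ _ (fun h => G.loopless.irrefl y ((htw x hx y hy y).1 h))
    rw [h5]
    unfold cs
    exact Finset.sum_const_zero
  rw [h2, h3, add_zero, add_zero]

end Pool.Agent.KleinClique
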