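import Pool.Agent.KleinClique.Basic

open Finset

namespace Pool.Agent.KleinClique

variable {V : Type*} [DecidableEq V]

theorem two_nsmul_zero (x : K4) : 2 • x = 0 := by rw [two_nsmul, k4_add_self]

theorem even_nsmul_zero {m : ℕ} (hm : Even m) (x : K4) : m • x = 0 := by
  obtain ⟨k, rfl⟩ := hm
  rw [add_nsmul, k4_add_self]

theorem cs_affine (c : Finset V → K4) (A : Finset V) (T : K4) (d : V → K4)
    (h : ∀ x ∈ A, ∀ y ∈ A, x ≠ y → c {x, y} = T + d x + d y) (S : Finset V) (hS : S ⊆ A) :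
    cs c S = (S.card.choose 2) • T + (S.card + 1) • ∑ z ∈ S, d z := by
  induction S using Finset.induction_on with
  | empty =>
    have : (∅ : Finset V).powersetCard 2 = ∅ := by
      rw [Finset.powersetCard_eq_empty]; simp
    simp [cs, this]
  | insert x S hx ih =>
    have hxA : x ∈ A := hS (Finset.mem_insert_self _ _)
    have hSA : S ⊆ A := (Finset.subset_insert _ _).trans hS
    rw [cs_insert c hx, ih hSA, Finset.sum_insert hx, Finset.card_insert_of_notMem hx]
    have h1 : ∑ y ∈ S, c {x, y} = S.card • T + S.card • d x + ∑ z ∈ S, d z := by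
      rw [Finset.sum_congr rfl (fun y hy => h x hxA y (hSA hy) (fun e => hx (e ▸ hy))),
        Finset.sum_add_distrib, Finset.sum_add_distrib, Finset.sum_const, Finset.sum_const]
    have h2 : (S.card + 1).choose 2 = S.card + S.card.choose 2 := by
      rw [Nat.choose_succ_succ' S.card 1, Nat.choose_one_right]
    have e1 : (S.card + S.card.choose 2) • T = S.card • T + S.card.choose 2 • T :=
      add_nsmul _ _ _
    have e2 : (S.card + 1 + 1) • (d x + ∑ z ∈ S, d z) =
        S.card • d x + ((S.card + 1) • (∑ z ∈ S, d z) + ∑ z ∈ S, d z) := by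
      rw [nsmul_add, add_nsmul (d x) (S.card + 1) 1, add_nsmul (d x) S.card 1,
        add_nsmul (∑ z ∈ S, d z) (S.card + 1) 1, one_nsmul, one_nsmul,
        add_assoc (S.card • d x), k4_add_self, add_zero]
    rw [h1, h2, e1, e2]
    generalize S.card • T = a
    generalize S.card.choose 2 • T = b
    generalize S.card • d x = e
    generalize (S.card + 1) • ∑ z ∈ S, d z = f
    generalize ∑ z ∈ S, d z = g
    abel

theorem choose_two_even {n : ℕ} (hn : n % 4 = 0 ∨ n % 4 = 1) : Even (n.choose 2) := by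
  rw [Nat.choose_two_right]
  obtain ⟨t, ht⟩ : ∃ t, n = 4 * t ∨ n = 4 * t + 1 := ⟨n / 4, by omega⟩
  rcases ht with rfl | rfl
  · have h2 : (4 * t) * (4 * t - 1) = 2 * (2 * (t * (4 * t - 1))) := by ring
    rw [h2, Nat.mul_div_cancel_left _ (by norm_num)]
    exact even_two_mul _
  · have h1 : 4 * t + 1 - 1 = 4 * t := by omega
    have h2 : (4 * t + 1) * (4 * t) = 2 * (2 * ((4 * t + 1) * t)) := by ring
    rw [h1, h2, Nat.mul_div_cancel_left _ (by norm_num)]
    exact even_two_mul _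

/-- `n ≡ 4, 5 (mod 8)` and `n + 6` vertices. -/
theorem six {n : ℕ} (hn : n % 8 = 4 ∨ n % 8 = 5) (c : Finset V → K4) (A : Finset V)
    (hA : A.card = n + 6) : ∃ S ⊆ A, S.card = n ∧ cs c S = 0 := by
  by_contra hcon
  have hne : ∀ S ⊆ A, S.card = n → cs c S ≠ 0 := fun S h1 h2 h3 => hcon ⟨S, h1, h2, h3⟩
  have hstr : ∀ x ∈ A, ∀ y ∈ A, x ≠ y → c {x, y} = cs c A + dg c A x + dg c A y := by
    intro x hx y hy hxy
    have hR : ({x, y} : Finset V) ⊆ A := by
      intro z hz
      rw [Finset.mem_insert, Finset.mem_singleton] at hz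
      rcases hz with rfl | rfl
      · exact hx
      · exact hy
    have h1 := cs_sdiff c A {x, y} hR
    have h2 : cs c (A \ {x, y}) = 0 := by
      apply key hn
      · rw [Finset.card_sdiff_of_subset hR, hA, Finset.card_pair hxy]
        omega
      · intro S hS
        rw [Finset.mem_powersetCard] at hS
        exact hne S (hS.1.trans Finset.sdiff_subset) hS.2
    have h3 : cs c {x, y} = c {x, y} := by
      unfold cs
      have : ({x, y} : Finset V).powersetCard 2 = {{x, y}} := by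
        have h4 := Finset.powersetCard_self ({x, y} : Finset V)
        rwa [Finset.card_pair hxy] at h4
      rw [this, Finset.sum_singleton]
    rw [h2, h3, Finset.sum_pair hxy] at h1
    have h5 := k4_add_self (c {x, y})
    calc c {x, y} = 0 + c {x, y} := by rw [zero_add]
      _ = cs c A + (dg c A x + dg c A y) + c {x, y} + c {x, y} := by rw [← h1]
      _ = _ := by rw [add_assoc, h5, add_zero, add_assoc]
  rcases hn with hn | hn
  · obtain ⟨S, hSA, hc, hs⟩ := pairs_zero (dg c A) (n / 2) A (by omega)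
    have hc' : S.card = n := by omega
    refine hne S hSA hc' ?_
    rw [cs_affine c A (cs c A) (dg c A) hstr S hSA, hs, nsmul_zero, add_zero, hc']
    exact even_nsmul_zero (choose_two_even (by omega)) _
  · obtain ⟨S, hSA, hc⟩ := Finset.exists_subset_card_eq (s := A) (n := n) (by omega)
    refine hne S hSA hc ?_
    rw [cs_affine c A (cs c A) (dg c A) hstr S hSA, hc,
      even_nsmul_zero (choose_two_even (by omega)), zero_add]
    exact even_nsmul_zero (Nat.even_iff.2 (by omega)) _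

/-- `n ≡ 4, 5 (mod 8)`, `n ≥ 12` and `n + 4` vertices. -/
theorem four {n : ℕ} (hn : n % 8 = 4 ∨ n % 8 = 5) (h12 : 12 ≤ n) (c : Finset V → K4)
    (A : Finset V) (hA : A.card = n + 4) : ∃ S ⊆ A, S.card = n ∧ cs c S = 0 := by
  by_contra hcon
  have hne : ∀ S ⊆ A, S.card = n → cs c S ≠ 0 := fun S h1 h2 h3 => hcon ⟨S, h1, h2, h3⟩
  have h0 : cs c A = 0 := by
    apply key hn c A hA
    intro S hS
    rw [Finset.mem_powersetCard] at hS
    exact hne S hS.1 hS.2
  obtain ⟨B, hBA, hB⟩ := Finset.exists_subset_card_eq (s := A) (n := 10) (by omega)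
  obtain ⟨R, hRB, hR, hz⟩ := six (n := 4) (Or.inl rfl)
    (fun e => c e + ∑ z ∈ e, dg c A z) B hB
  have h1 : cs (fun e => c e + ∑ z ∈ e, dg c A z) R = cs c R + ∑ z ∈ R, dg c A z := by
    have h2 : cs (fun e => ∑ z ∈ e, dg c A z) R = ∑ z ∈ R, dg c A z := by
      rw [cs_affine (fun e => ∑ z ∈ e, dg c A z) R 0 (dg c A) (fun x _ y _ hxy => by
        rw [Finset.sum_pair hxy, zero_add]) R (Finset.Subset.refl _), hR, nsmul_zero, zero_add]
      rw [add_nsmul, even_nsmul_zero (by decide), zero_add, one_nsmul]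
    rw [← h2]
    unfold cs
    rw [← Finset.sum_add_distrib]
  have h3 := cs_sdiff c A R (hRB.trans hBA)
  rw [h0, zero_add] at h3
  refine hne (A \ R) Finset.sdiff_subset ?_ ?_
  · rw [Finset.card_sdiff_of_subset (hRB.trans hBA), hA, hR]
    omega
  · rw [h3, add_comm, ← h1, hz]

/-- `n ≥ 8` with `n ≡ 0, 1 (mod 4)` and `n + 4` vertices. -/
theorem upper {n : ℕ} (h8 : 8 ≤ n) (hn : n % 4 = 0 ∨ n % 4 = 1) (c : Finset V → K4)
    (A : Finset V) (hA : A.card = n + 4) : ∃ S ⊆ A, S.card = n ∧ cs c S = 0 := by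
  by_cases h : n % 8 = 0 ∨ n % 8 = 1
  · exact zero_one h8 h c A hA
  · exact four (by omega) (by omega) c A hA

theorem cs_class (D S : Finset V) (g : K4) :
    cs (fun e => if e ⊆ D then g else 0) S = ((S ∩ D).card.choose 2) • g := by
  unfold cs
  rw [← Finset.sum_filter, Finset.sum_const, ← Finset.card_powersetCard]
  congr 2
  ext e
  simp only [Finset.mem_filter, Finset.mem_powersetCard, Finset.subset_inter_iff]
  tauto

omit [DecidableEq V] in
theorem cs_add (c c' : Finset V → K4) (S : Finset V) :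
    cs (fun e => c e + c' e) S = cs c S + cs c' S := by
  unfold cs
  rw [← Finset.sum_add_distrib]

/-- Nested colouring: `(1, 0)` on the edges inside `P` plus `(0, 1)` on the edges inside `P'`. -/
theorem lower (P P' S : Finset V) (h1 : (S ∩ P).card ≤ 3) (h2 : (S ∩ P').card ≤ (S ∩ P).card + 2)
    (h3 : 2 ≤ (S ∩ P').card) :
    cs (fun e => (if e ⊆ P then ((1, 0) : K4) else 0) + if e ⊆ P' then ((0, 1) : K4) else 0) S
      ≠ 0 := by
  rw [cs_add, cs_class, cs_class]
  obtain ⟨a, ha⟩ : ∃ a, (S ∩ P).card = a := ⟨_, rfl⟩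
  obtain ⟨b, hb⟩ : ∃ b, (S ∩ P').card = b := ⟨_, rfl⟩
  rw [ha] at h1 h2 ⊢
  rw [hb] at h2 h3 ⊢
  have h5 : b ≤ 5 := by omega
  interval_cases a <;> interval_cases b <;> first | omega | decide

/-- Three classes with different nonzero colours. -/
theorem three (P Q R S : Finset V) (hP : (S ∩ P).card ≤ 3) (hQ : (S ∩ Q).card ≤ 3)
    (hR : (S ∩ R).card ≤ 3) (h4 : 4 ≤ (S ∩ P).card + (S ∩ Q).card + (S ∩ R).card)
    (h5 : (S ∩ P).card + (S ∩ Q).card + (S ∩ R).card ≤ 5) :
    cs (fun e => (if e ⊆ P then ((1, 0) : K4) else 0) + ((if e ⊆ Q then ((0, 1) : K4) else 0) +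
      if e ⊆ R then ((1, 1) : K4) else 0)) S ≠ 0 := by
  rw [cs_add, cs_add, cs_class, cs_class, cs_class]
  obtain ⟨a, ha⟩ : ∃ a, (S ∩ P).card = a := ⟨_, rfl⟩
  obtain ⟨b, hb⟩ : ∃ b, (S ∩ Q).card = b := ⟨_, rfl⟩
  obtain ⟨c, hc⟩ : ∃ c, (S ∩ R).card = c := ⟨_, rfl⟩
  rw [ha] at hP h4 h5 ⊢
  rw [hb] at hQ h4 h5 ⊢
  rw [hc] at hR h4 h5 ⊢
  interval_cases a <;> interval_cases b <;> interval_cases c <;> first | omega | decide

end Pool.Agent.KleinClique
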