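import Pool.Agent.KleinClique.Basic

open Finset

namespace Pool.Agent.KleinClique

/-- the star with centre `0` and `b` leaves -/
def starG (b : ℕ) : SimpleGraph (Fin (b + 1)) where
  Adj u v := u ≠ v ∧ (u = 0 ∨ v = 0)
  symm := ⟨fun _ _ h => ⟨h.1.symm, h.2.symm⟩⟩
  loopless := ⟨fun _ h => h.1 rfl⟩

/-- colours of the pairs of classes `0, 1, 2, 3` -/
def gc : ℕ → ℕ → K4
  | 0, 1 => (1, 0)
  | 1, 0 => (1, 0)
  | 0, 2 => (0, 1)
  | 2, 0 => (0, 1)
  | 1, 2 => (1, 1)
  | 2, 1 => (1, 1)
  | 0, 3 => (1, 1)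
  | 3, 0 => (1, 1)
  | 1, 3 => (0, 1)
  | 3, 1 => (0, 1)
  | 2, 3 => (1, 0)
  | 3, 2 => (1, 0)
  | 3, 3 => (1, 0)
  | _, _ => 0

def ga (i j : ℕ) : K4 := gc (min i 3) (min j 3)

theorem ga_symm (i j : ℕ) : ga i j = ga j i := by
  unfold ga
  have h1 : min i 3 ≤ 3 := min_le_right _ _
  have h2 : min j 3 ≤ 3 := min_le_right _ _
  generalize min i 3 = a at *
  generalize min j 3 = b at *
  interval_cases a <;> interval_cases b <;> rfl

theorem ga_ne (i j : ℕ) (h : i ≠ j) : ga i j ≠ 0 := by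
  unfold ga
  have h1 : min i 3 ≤ 3 := min_le_right _ _
  have h2 : min j 3 ≤ 3 := min_le_right _ _
  have h3 : min i 3 ≠ min j 3 ∨ (min i 3 = 3 ∧ min j 3 = 3) := by omega
  generalize min i 3 = a at *
  generalize min j 3 = b at *
  rcases h3 with h3 | ⟨rfl, rfl⟩
  · interval_cases a <;> interval_cases b <;> first | exact absurd rfl h3 | decide
  · decide

theorem ga_sum (i m : ℕ) :
    ∑ j ∈ Finset.range (m + 3), ga i j = ga i 0 + ga i 1 + ga i 2 + m • ga i 3 := by
  induction m with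
  | zero => simp [Finset.sum_range_succ]
  | succ m ih =>
    have h1 : m + 1 + 3 = (m + 3) + 1 := by ring
    have h2 : ga i (m + 3) = ga i 3 := by
      unfold ga
      congr 1
      omega
    rw [h1, Finset.sum_range_succ, ih, h2, succ_nsmul, add_assoc]

theorem ga_total (i k : ℕ) (hi : i < 2 * k + 4) :
    ∑ j ∈ (Finset.range (2 * k + 4)).erase i, ga i j = 0 := by
  have h1 := Finset.add_sum_erase (Finset.range (2 * k + 4)) (fun j => ga i j)
    (Finset.mem_range.2 hi)
  have h2 : 2 * k + 4 = (2 * k + 1) + 3 := by ring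
  have h3 : (2 * k + 1) • ga i 3 = ga i 3 := by
    have h4 : (2 * k) • ga i 3 = 0 := by
      rw [mul_comm, mul_nsmul, two_nsmul, k4_add_self]
    rw [add_nsmul, h4, zero_add, one_nsmul]
  have h5 : ∑ j ∈ Finset.range (2 * k + 4), ga i j = ga i 0 + ga i 1 + ga i 2 + ga i 3 := by
    rw [h2, ga_sum, h3]
  rw [h5] at h1
  have h6 : ga i i = ga i 0 + ga i 1 + ga i 2 + ga i 3 := by
    unfold ga
    have h7 : min i 3 ≤ 3 := min_le_right _ _
    generalize min i 3 = a at *
    interval_cases a <;> decide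
  rw [← h6] at h1
  have h8 : ga i i + ga i i + ∑ j ∈ (Finset.range (2 * k + 4)).erase i, ga i j =
      ga i i + ga i i := by
    rw [add_assoc]
    exact congrArg _ h1
  rw [k4_add_self, zero_add] at h8
  exact h8

/-- the star sum over all but one of the other vertices is not zero -/
theorem ga_star (x k N : ℕ) (T : Finset (Fin N)) (hN : N ≤ 2 * k + 4) (hx : x < N)
    (hT : ∀ y ∈ T, y.val ≠ x) (hc : T.card = 2 * k + 2) : ∑ y ∈ T, ga x y.val ≠ 0 := by
  have h1 : T.map Fin.valEmbedding ⊆ (Finset.range (2 * k + 4)).erase x := by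
    intro z hz
    rw [Finset.mem_map] at hz
    obtain ⟨y, hy, rfl⟩ := hz
    rw [Finset.mem_erase, Finset.mem_range]
    exact ⟨hT y hy, lt_of_lt_of_le y.isLt hN⟩
  have h2 : (((Finset.range (2 * k + 4)).erase x) \ T.map Fin.valEmbedding).card = 1 := by
    rw [Finset.card_sdiff_of_subset h1, Finset.card_erase_of_mem, Finset.card_range,
      Finset.card_map, hc]
    · omega
    · rw [Finset.mem_range]
      omega
  rw [Finset.card_eq_one] at h2
  obtain ⟨z, hz⟩ := h2
  have hzx : x ≠ z := by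
    have h3 : z ∈ ((Finset.range (2 * k + 4)).erase x) \ T.map Fin.valEmbedding := by
      rw [hz]
      exact Finset.mem_singleton_self z
    rw [Finset.mem_sdiff, Finset.mem_erase] at h3
    exact h3.1.1.symm
  have h3 := Finset.sum_sdiff (f := fun j => ga x j) h1
  rw [hz, Finset.sum_singleton, ga_total x k (by omega), Finset.sum_map] at h3
  intro h4
  have h5 : ∑ y ∈ T, ga x (Fin.valEmbedding y) = 0 := h4
  rw [h5, add_zero] at h3
  exact ga_ne x z hzx h3

end Pool.Agent.KleinClique
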