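import Pool.Agent.KleinClique.Basic

open Finset

namespace Pool.Agent.KleinClique

variable {V : Type*} [DecidableEq V]

/-- the subsets of `S` with one or two elements -/
def E12 (S : Finset V) : Finset (Finset V) := S.powersetCard 1 ∪ S.powersetCard 2

theorem mem_E12 {S e : Finset V} : e ∈ E12 S ↔ e ⊆ S ∧ (e.card = 1 ∨ e.card = 2) := by
  unfold E12
  rw [Finset.mem_union, Finset.mem_powersetCard, Finset.mem_powersetCard]
  tauto

theorem E12_filter {W S : Finset V} (h : S ⊆ W) : E12 S = (E12 W).filter (fun e => e ⊆ S) := by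
  ext e
  rw [Finset.mem_filter, mem_E12, mem_E12]
  constructor
  · rintro ⟨h1, h2⟩; exact ⟨⟨h1.trans h, h2⟩, h1⟩
  · rintro ⟨⟨_, h2⟩, h3⟩; exact ⟨h3, h2⟩

theorem twelve (g : Finset V → K4) (W : Finset V) (hW : W.card = 12) :
    ∃ T ⊆ W, T.card = 8 ∧ ∑ e ∈ E12 T, g e = 0 := by
  by_contra hcon
  have hne : ∀ S ∈ W.powersetCard 8, ∑ e ∈ E12 S, g e ≠ 0 := fun S h1 h2 =>
    hcon ⟨S, (Finset.mem_powersetCard.1 h1).1, (Finset.mem_powersetCard.1 h1).2, h2⟩
  have h1 : ∑ S ∈ W.powersetCard 8, q (∑ e ∈ E12 S, g e) = 1 := by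
    rw [Finset.sum_congr rfl (fun S hS => q_eq_one (hne S hS)), Finset.sum_const,
      Finset.card_powersetCard, hW, nsmul_eq_mul, mul_one]
    decide
  have h2 : ∑ S ∈ W.powersetCard 8, q (∑ e ∈ E12 S, g e) = 0 := by
    have h3 : ∀ S ∈ W.powersetCard 8, q (∑ e ∈ E12 S, g e) =
        ∑ e ∈ E12 W, ∑ f ∈ E12 W, if e ∪ f ⊆ S then bb (g e) (g f) else 0 := by
      intro S hS
      rw [q_sum, E12_filter (Finset.mem_powersetCard.1 hS).1, Finset.sum_filter]
      refine Finset.sum_congr rfl fun e _ => ?_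
      by_cases he : e ⊆ S
      · rw [if_pos he, Finset.sum_filter]
        refine Finset.sum_congr rfl fun f _ => ?_
        by_cases hf : f ⊆ S
        · rw [if_pos hf, if_pos (Finset.union_subset he hf)]
        · rw [if_neg hf, if_neg (fun h => hf (Finset.subset_union_right.trans h))]
      · rw [if_neg he]
        symm
        apply Finset.sum_eq_zero
        intro f _
        rw [if_neg (fun h => he (Finset.subset_union_left.trans h))]
    rw [Finset.sum_congr rfl h3, Finset.sum_comm]
    refine Finset.sum_eq_zero fun e he => ?_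
    rw [Finset.sum_comm]
    refine Finset.sum_eq_zero fun f hf => ?_
    rw [← Finset.sum_filter, Finset.sum_const, nsmul_eq_mul]
    have he' := mem_E12.1 he
    have hf' := mem_E12.1 hf
    have hU : e ∪ f ⊆ W := Finset.union_subset he'.1 hf'.1
    have hu4 : (e ∪ f).card ≤ 4 := by
      have := Finset.card_union_le e f
      omega
    have hu1 : 1 ≤ (e ∪ f).card := by
      have := Finset.card_le_card (Finset.subset_union_left (s₁ := e) (s₂ := f))
      omega
    rw [count_super W (e ∪ f) 8 hU (by omega), hW]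
    have h5 : ∀ u : ℕ, 1 ≤ u → u ≤ 4 → (((12 - u).choose (8 - u) : ℕ) : ZMod 2) = 0 := by
      intro u hu hu'
      interval_cases u <;> decide
    rw [h5 _ hu1 hu4, zero_mul]
  rw [h2] at h1
  exact zero_ne_one h1

theorem cs_union (c : Finset V → K4) (A : Finset V) (B : Finset V) (h : Disjoint A B) :
    cs c (A ∪ B) = cs c A + cs c B + ∑ b ∈ B, ∑ a ∈ A, c {b, a} := by
  induction B using Finset.induction_on with
  | empty =>
    have : (∅ : Finset V).powersetCard 2 = ∅ := by
      rw [Finset.powersetCard_eq_empty]; simp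
    simp [cs, this]
  | insert x B hx ih =>
    rw [Finset.disjoint_insert_right] at h
    have h1 : x ∉ A ∪ B := by
      rw [Finset.mem_union, not_or]
      exact ⟨h.1, hx⟩
    rw [Finset.union_insert, cs_insert c h1, ih h.2, cs_insert c hx, Finset.sum_insert hx,
      Finset.sum_union h.2]
    abel

variable {X : Type*} [DecidableEq X]

/-- the colours of the edges of `G` under the placement `φ` -/
noncomputable def pull (G : SimpleGraph V) (cF : Finset X → K4) (φ : V → X) : Finset V → K4 := by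
  classical
  exact fun e => if ∃ u v, e = {u, v} ∧ G.Adj u v then cF (e.image φ) else 0

theorem pull_pair (G : SimpleGraph V) (cF : Finset X → K4) (φ : V → X) {u v : V}
    (h : G.Adj u v) : pull G cF φ {u, v} = cF {φ u, φ v} := by
  classical
  unfold pull
  rw [if_pos ⟨u, v, rfl, h⟩, Finset.image_insert, Finset.image_singleton]

theorem pull_pair_neg (G : SimpleGraph V) (cF : Finset X → K4) (φ : V → X) {u v : V}
    (h : ¬ G.Adj u v) : pull G cF φ {u, v} = 0 := by
  classical
  unfold pull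
  rw [if_neg]
  rintro ⟨a, b, h1, h2⟩
  apply h
  have ha : a ∈ ({u, v} : Finset V) := by rw [h1]; simp
  have hb : b ∈ ({u, v} : Finset V) := by rw [h1]; simp
  rw [Finset.mem_insert, Finset.mem_singleton] at ha hb
  rcases ha with rfl | rfl <;> rcases hb with rfl | rfl
  · exact absurd rfl h2.ne
  · exact h2
  · exact h2.symm
  · exact absurd rfl h2.ne

theorem cs_congr (c c' : Finset V → K4) (S : Finset V)
    (h : ∀ x ∈ S, ∀ y ∈ S, x ≠ y → c {x, y} = c' {x, y}) : cs c S = cs c' S := by
  unfold cs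
  refine Finset.sum_congr rfl fun e he => ?_
  rw [Finset.mem_powersetCard, Finset.card_eq_two] at he
  obtain ⟨h1, x, y, hxy, rfl⟩ := he
  exact h x (h1 (by simp)) y (h1 (by simp)) hxy

theorem cs_image (cF : Finset X → K4) (B : Finset V) (ψ : V → X) (hψ : Set.InjOn ψ B) :
    cs (fun e => cF (e.image ψ)) B = cs cF (B.image ψ) := by
  unfold cs
  refine Finset.sum_bij (fun e _ => e.image ψ) ?_ ?_ ?_ ?_
  · intro e he
    rw [Finset.mem_powersetCard] at he ⊢
    refine ⟨Finset.image_subset_image he.1, ?_⟩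
    rw [Finset.card_image_of_injOn (hψ.mono (by exact_mod_cast he.1)), he.2]
  · intro e he f hf hef
    rw [Finset.mem_powersetCard] at he hf
    ext z
    constructor
    · intro hz
      have h1 : ψ z ∈ f.image ψ := hef ▸ Finset.mem_image_of_mem ψ hz
      obtain ⟨w, hw, hwz⟩ := Finset.mem_image.1 h1
      have h2 := hψ (hf.1 hw) (he.1 hz) hwz
      exact h2 ▸ hw
    · intro hz
      have h1 : ψ z ∈ e.image ψ := hef ▸ Finset.mem_image_of_mem ψ hz
      obtain ⟨w, hw, hwz⟩ := Finset.mem_image.1 h1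
      have h2 := hψ (he.1 hw) (hf.1 hz) hwz
      exact h2 ▸ hw
  · intro t ht
    rw [Finset.mem_powersetCard, Finset.card_eq_two] at ht
    obtain ⟨h1, x, y, hxy, rfl⟩ := ht
    obtain ⟨a, ha, rfl⟩ := Finset.mem_image.1 (h1 (Finset.mem_insert_self _ _))
    obtain ⟨b, hb, rfl⟩ := Finset.mem_image.1
      (h1 (Finset.mem_insert_of_mem (Finset.mem_singleton_self _)))
    refine ⟨{a, b}, ?_, ?_⟩
    · rw [Finset.mem_powersetCard]
      refine ⟨?_, Finset.card_pair (fun h => hxy (h ▸ rfl))⟩
      intro z hz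
      rw [Finset.mem_insert, Finset.mem_singleton] at hz
      rcases hz with rfl | rfl
      · exact ha
      · exact hb
    · rw [Finset.image_insert, Finset.image_singleton]
  · intro e _
    rfl

theorem sum_E12 (l : X → K4) (k : Finset X → K4) (T : Finset X) :
    ∑ e ∈ E12 T, (if e.card = 1 then ∑ z ∈ e, l z else k e) = ∑ x ∈ T, l x + cs k T := by
  unfold E12 cs
  rw [Finset.sum_union]
  · congr 1
    · rw [Finset.powersetCard_one, Finset.sum_map]
      refine Finset.sum_congr rfl fun x _ => ?_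
      simp
    · refine Finset.sum_congr rfl fun e he => ?_
      rw [Finset.mem_powersetCard] at he
      rw [if_neg (by omega)]
  · rw [Finset.disjoint_left]
    intro e h1 h2
    rw [Finset.mem_powersetCard] at h1 h2
    omega

theorem twins_clique (G : SimpleGraph V) (B : Finset V)
    (htw : ∀ u ∈ B, ∀ v ∈ B, ∀ w, w ≠ u → w ≠ v → (G.Adj u w ↔ G.Adj v w))
    {u v : V} (hu : u ∈ B) (hv : v ∈ B) (huv : G.Adj u v) :
    ∀ x ∈ B, ∀ y ∈ B, x ≠ y → G.Adj x y := by
  have h1 : ∀ x ∈ B, x ≠ v → G.Adj x v := by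
    intro x hx hxv
    exact (htw u hu x hx v huv.ne' hxv.symm).1 huv
  intro x hx y hy hxy
  by_cases hxv : x = v
  · subst hxv
    exact (h1 y hy hxy.symm).symm
  · by_cases hyv : y = v
    · subst hyv
      exact h1 x hx hxy
    · exact ((htw v hv y hy x hxv hxy).1 (h1 x hx hxv).symm).symm

theorem extend [Fintype X] (G : SimpleGraph V) (cF : Finset X → K4) (A B : Finset V)
    (hAB : Disjoint A B) (hB : B.card = 8)
    (htw : ∀ u ∈ B, ∀ v ∈ B, ∀ w, w ≠ u → w ≠ v → (G.Adj u w ↔ G.Adj v w)) (φ : V → X)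
    (hφ : Set.InjOn φ A) (h0 : cs (pull G cF φ) A = 0) (hX : A.card + 12 ≤ Fintype.card X) :
    ∃ ψ : V → X, Set.InjOn ψ (A ∪ B : Finset V) ∧ cs (pull G cF ψ) (A ∪ B) = 0 := by
  classical
  have hZ : 12 ≤ (Finset.univ \ A.image φ).card := by
    rw [Finset.card_sdiff_of_subset (Finset.subset_univ _), Finset.card_univ]
    have := Finset.card_image_le (s := A) (f := φ)
    omega
  obtain ⟨W, hWZ, hW⟩ := Finset.exists_subset_card_eq hZ
  obtain ⟨b0, hb0⟩ : B.Nonempty := by rw [← Finset.card_pos]; omega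
  let l : X → K4 := fun x => ∑ a ∈ A, if G.Adj b0 a then cF {x, φ a} else 0
  let k : Finset X → K4 := fun e => if (∃ u ∈ B, ∃ v ∈ B, G.Adj u v) then cF e else 0
  obtain ⟨T, hTW, hT, hT0⟩ := twelve (fun e => if e.card = 1 then ∑ z ∈ e, l z else k e) W hW
  rw [sum_E12] at hT0
  let β : B ≃ T := Finset.equivOfCardEq (hB.trans hT.symm)
  let ψ : V → X := fun v => if h : v ∈ B then (β ⟨v, h⟩ : X) else φ v
  have hψB : ∀ v (h : v ∈ B), ψ v = (β ⟨v, h⟩ : X) := fun v h => dif_pos h
  have hψA : ∀ v ∈ A, ψ v = φ v := fun v h => dif_neg (Finset.disjoint_left.1 hAB h)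
  have hψT : ∀ v ∈ B, ψ v ∈ T := fun v h => by rw [hψB v h]; exact (β ⟨v, h⟩).2
  have hinjB : Set.InjOn ψ B := by
    intro u hu v hv huv
    rw [hψB u hu, hψB v hv] at huv
    have h1 := β.injective (Subtype.ext huv)
    exact congrArg Subtype.val h1
  have himg : B.image ψ = T := by
    apply Finset.eq_of_subset_of_card_le
    · intro x hx
      obtain ⟨v, hv, rfl⟩ := Finset.mem_image.1 hx
      exact hψT v hv
    · rw [Finset.card_image_of_injOn hinjB, hB, hT]
  have hTA : ∀ x ∈ T, ∀ a ∈ A, x ≠ φ a := by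
    intro x hx a ha h
    have h1 := hWZ (hTW hx)
    rw [Finset.mem_sdiff] at h1
    exact h1.2 (h ▸ Finset.mem_image_of_mem φ ha)
  refine ⟨ψ, ?_, ?_⟩
  · intro u hu v hv huv
    rw [Finset.mem_coe, Finset.mem_union] at hu hv
    rcases hu with hu | hu <;> rcases hv with hv | hv
    · rw [hψA u hu, hψA v hv] at huv
      exact hφ hu hv huv
    · rw [hψA u hu] at huv
      exact absurd huv.symm (hTA _ (hψT v hv) u hu)
    · rw [hψA v hv] at huv
      exact absurd huv (hTA _ (hψT u hu) v hv)
    · exact hinjB hu hv huv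
  · rw [cs_union _ _ _ hAB]
    have h1 : cs (pull G cF ψ) A = 0 := by
      rw [← h0]
      apply cs_congr
      intro x hx y hy _
      by_cases h : G.Adj x y
      · rw [pull_pair _ _ _ h, pull_pair _ _ _ h, hψA x hx, hψA y hy]
      · rw [pull_pair_neg _ _ _ h, pull_pair_neg _ _ _ h]
    have h2 : cs (pull G cF ψ) B = cs k T := by
      rw [← himg, ← cs_image k B ψ hinjB]
      apply cs_congr
      intro x hx y hy hxy
      by_cases h : G.Adj x y
      · rw [pull_pair _ _ _ h, Finset.image_insert, Finset.image_singleton]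
        exact (if_pos ⟨x, hx, y, hy, h⟩).symm
      · rw [pull_pair_neg _ _ _ h]
        symm
        apply if_neg
        rintro ⟨u, hu, v, hv, huv⟩
        exact h (twins_clique G B htw hu hv huv x hx y hy hxy)
    have h3 : ∑ b ∈ B, ∑ a ∈ A, pull G cF ψ {b, a} = ∑ x ∈ T, l x := by
      rw [← himg, Finset.sum_image hinjB]
      refine Finset.sum_congr rfl fun b hb => Finset.sum_congr rfl fun a ha => ?_
      have hab : a ≠ b := fun h => Finset.disjoint_left.1 hAB ha (h ▸ hb)
      have hab0 : a ≠ b0 := fun h => Finset.disjoint_left.1 hAB ha (h ▸ hb0)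
      by_cases h : G.Adj b a
      · rw [pull_pair _ _ _ h, if_pos ((htw b hb b0 hb0 a hab hab0).1 h), hψA a ha]
      · rw [pull_pair_neg _ _ _ h, if_neg (fun h' => h ((htw b hb b0 hb0 a hab hab0).2 h'))]
    rw [h1, h2, h3, zero_add, add_comm, hT0]

/-- parity bookkeeping: removing a block of eight twins does not change the parity -/
theorem parity_step (G : SimpleGraph V) (A B : Finset V)
    (hAB : Disjoint A B) (hB : B.card = 8)
    (htw : ∀ u ∈ B, ∀ v ∈ B, ∀ w, w ≠ u → w ≠ v → (G.Adj u w ↔ G.Adj v w)) :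
    cs (pull G (fun _ : Finset V => ((1, 0) : K4)) id) (A ∪ B) =
      cs (pull G (fun _ : Finset V => ((1, 0) : K4)) id) A := by
  classical
  rw [cs_union _ _ _ hAB]
  obtain ⟨b0, hb0⟩ : B.Nonempty := by rw [← Finset.card_pos]; omega
  have h3 : ∑ b ∈ B, ∑ a ∈ A, pull G (fun _ : Finset V => ((1, 0) : K4)) id {b, a} = 0 := by
    have h4 : ∀ b ∈ B, ∑ a ∈ A, pull G (fun _ : Finset V => ((1, 0) : K4)) id {b, a} =
        ∑ a ∈ A, pull G (fun _ : Finset V => ((1, 0) : K4)) id {b0, a} := by
      intro b hb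
      refine Finset.sum_congr rfl fun a ha => ?_
      have hab : a ≠ b := fun h => Finset.disjoint_left.1 hAB ha (h ▸ hb)
      have hab0 : a ≠ b0 := fun h => Finset.disjoint_left.1 hAB ha (h ▸ hb0)
      by_cases h : G.Adj b a
      · rw [pull_pair _ _ _ h, pull_pair _ _ _ ((htw b hb b0 hb0 a hab hab0).1 h)]
      · rw [pull_pair_neg _ _ _ h,
          pull_pair_neg _ _ _ (fun h' => h ((htw b hb b0 hb0 a hab hab0).2 h'))]
    rw [Finset.sum_congr rfl h4, Finset.sum_const, hB]
    generalize ∑ a ∈ A, pull G (fun _ : Finset V => ((1, 0) : K4)) id {b0, a} = z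
    revert z
    decide
  have h2 : cs (pull G (fun _ : Finset V => ((1, 0) : K4)) id) B = 0 := by
    by_cases hcl : ∃ u ∈ B, ∃ v ∈ B, G.Adj u v
    · obtain ⟨u, hu, v, hv, huv⟩ := hcl
      have h5 : cs (pull G (fun _ : Finset V => ((1, 0) : K4)) id) B =
          cs (fun _ => ((1, 0) : K4)) B := by
        apply cs_congr
        intro x hx y hy hxy
        rw [pull_pair _ _ _ (twins_clique G B htw hu hv huv x hx y hy hxy)]
      rw [h5]
      unfold cs
      rw [Finset.sum_const, Finset.card_powersetCard, hB]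
      decide
    · have h5 : cs (pull G (fun _ : Finset V => ((1, 0) : K4)) id) B =
          cs (fun _ => (0 : K4)) B := by
        apply cs_congr
        intro x hx y hy hxy
        exact pull_pair_neg _ _ _ (fun h => hcl ⟨x, hx, y, hy, h⟩)
      rw [h5]
      unfold cs
      exact Finset.sum_const_zero
  rw [h2, h3, add_zero, add_zero]

end Pool.Agent.KleinClique
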